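import Pool.Agent.H2.EDV.Targets
import Pool.Agent.H8.TD.Basic
import Pool.Agent.H18.HIT.PN
import Pool.Agent.H68.ED.LRG

/-!
# Relations between a point and its image (row VID)
-/

set_option autoImplicit false

open MvPolynomial
open Pool.Agent.H12.ZD (pmap)
open Pool.Agent.H18.HIT Pool.Agent.H18.HX Pool.Agent.H18.VZ
open Pool.Agent.H8.TD (lc dg Cop)
open Pool.Agent.H2.ED
open Pool.Agent.H2.EDV (T_VID)
open Pool.Agent.H68.ED (hmg hmg_hom hmg_aeval)

namespace Pool.Agent.H50.EDV

section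
variable {ν r D : ℕ} {k κ : Type} [Field k] [Field κ] [Algebra k κ]
  {V : Ideal (Po (ν + 2) k)} {G : Tup (ν + 2) k} {η : Fin (ν + 2) → κ} {τV : κ →ₐ[k] κ}

theorem aeval_self (x : Fin (ν + 2) → k) (p : Po (ν + 2) k) : aeval x p = eval x p := by
  rw [aeval_def]
  rfl

/-- values of a form at proportional points -/
theorem aeval_smul_hom {N : ℕ} {q : Po N k} {s : ℕ} (hq : q.IsHomogeneous s) (c : κ)
    (y : Fin N → κ) : aeval (fun i => c * y i) q = c ^ s * aeval y q := by
  have h1 : aeval (fun i => c * y i) q = eval (fun i => c * y i) (map (algebraMap k κ) q) := by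
    rw [eval_map, aeval_def]
  have h2 : aeval y q = eval y (map (algebraMap k κ) q) := by
    rw [eval_map, aeval_def]
  rw [h1, h2]
  exact Pool.Agent.H8.TD.eval_smul (hq.map _) c y

theorem it_inv (hinv : ∀ q, aeval G q ∈ V ↔ q ∈ V) (n : ℕ) (q : Po (ν + 2) k) :
    aeval (it G n) q ∈ V ↔ q ∈ V := by
  induction n generalizing q with
  | zero =>
    rw [it_zero, aeval_X_left_apply]
  | succ n ih =>
    have h1 : aeval (it G (n + 1)) q = aeval (it G n) (aeval G q) := by
      rw [it_succ, ← AlgHom.comp_apply, comp_aeval]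
      rfl
    rw [h1, ih, hinv]

theorem tauV_aeval (h : Fv V r G η τV) {q : Po (ν + 2) k} {s : ℕ} (hq : q.IsHomogeneous s) :
    τV (aeval η q) * aeval η (G 1) ^ s = aeval η (aeval G q) := by
  have h1 : τV (aeval η q) = aeval (fun i => τV (η i)) q := by
    rw [← AlgHom.comp_apply, comp_aeval]
  have h2 : (fun i => aeval η (G i)) = fun i => aeval η (G 1) * τV (η i) := by
    funext i
    rw [← h.eq i, mul_comm]
  have h3 : aeval η (aeval G q) = aeval (fun i => aeval η (G i)) q := by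
    rw [← AlgHom.comp_apply, comp_aeval]
  rw [h1, h3, h2, aeval_smul_hom hq, mul_comm]

theorem itV_ne (hG : ∀ i, (G i).IsHomogeneous D) (hinv : ∀ q, aeval G q ∈ V ↔ q ∈ V)
    (h : Fv V r G η τV) (n : ℕ) : aeval η (it G n 1) ≠ 0 := by
  intro h0
  have h1 := (h.gv.iff _ (it G n 1) (it_hom hG n 1)).1 h0
  have h2 : (X 1 : Po (ν + 2) k) ∈ V := by
    rw [← it_inv hinv n, aeval_X]
    exact h1
  have h3 := (h.gv.iff 1 (X 1) (isHomogeneous_X k _)).2 h2
  rw [aeval_X, h.gv.one] at h3
  exact one_ne_zero h3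

theorem itV_eq (hG : ∀ i, (G i).IsHomogeneous D) (hinv : ∀ q, aeval G q ∈ V ↔ q ∈ V)
    (h : Fv V r G η τV) (n : ℕ) (i : Fin (ν + 2)) :
    τV^[n] (η i) = aeval η (it G n i) / aeval η (it G n 1) := by
  induction n generalizing i with
  | zero =>
    have h1 : ∀ i, aeval η (it G 0 i) = η i := by
      intro i
      rw [it_zero, aeval_X]
    rw [h1, h1, h.gv.one, div_one]
    rfl
  | succ n ih =>
    have h2 : ∀ i, τV (aeval η (it G n i)) * aeval η (G 1) ^ (D ^ n) =
        aeval η (it G (n + 1) i) := by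
      intro i
      rw [tauV_aeval h (it_hom hG n i), it_succ']
      rfl
    rw [Function.iterate_succ_apply', ih, map_div₀, ← h2, ← h2,
      mul_div_mul_right _ _ (pow_ne_zero _ h.ne)]

/-- Clearing the denominators of a relation. -/
theorem clear_den (H : Tup (ν + 2) k) (Q : MvPolynomial (Fin (ν + 2) ⊕ Fin (ν + 2)) k) :
    ∃ (N : ℕ) (R : Po (ν + 2) k), ∀ (L : Type) [Field L] [Algebra k L] (w : Fin (ν + 2) → L),
      aeval w (H 1) ≠ 0 → aeval w R = (aeval w (H 1)) ^ N *
        aeval (Sum.elim w fun i => aeval w (H i) / aeval w (H 1)) Q := by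
  induction Q using MvPolynomial.induction_on with
  | C a =>
    refine ⟨0, C a, ?_⟩
    intro L _ _ w _
    rw [pow_zero, one_mul, aeval_C, aeval_C]
  | add p q hp hq =>
    obtain ⟨N1, R1, h1⟩ := hp
    obtain ⟨N2, R2, h2⟩ := hq
    refine ⟨N1 + N2, H 1 ^ N2 * R1 + H 1 ^ N1 * R2, ?_⟩
    intro L _ _ w hw
    rw [map_add, map_mul, map_mul, map_pow, map_pow, h1 L w hw, h2 L w hw, map_add]
    ring
  | mul_X p i hp =>
    obtain ⟨N, R, h1⟩ := hp
    rcases i with i | i
    · refine ⟨N, R * X i, ?_⟩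
      intro L _ _ w hw
      rw [map_mul, aeval_X, h1 L w hw, map_mul, aeval_X, Sum.elim_inl]
      ring
    · refine ⟨N + 1, R * H i, ?_⟩
      intro L _ _ w hw
      rw [map_mul, h1 L w hw, map_mul, aeval_X, Sum.elim_inr]
      field_simp
      ring

end

theorem pf_VID : T_VID := by
  intro ν r D n k κ _ _ _ V G η τV hG hV hHm hinv hF Q hQ x hx hx1 hxn
  obtain ⟨N, R, hR⟩ := clear_den (it G n) Q
  have h1 : aeval η R = 0 := by
    rw [hR κ η (itV_ne hG hinv hF n)]
    have h2 : (fun i => aeval η (it G n i) / aeval η (it G n 1)) = fun i => τV^[n] (η i) := by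
      funext i
      rw [itV_eq hG hinv hF n i]
    rw [h2, hQ, mul_zero]
  rw [← hmg_aeval R η hF.gv.one] at h1
  have h2 := (hF.gv.iff _ _ (hmg_hom R)).1 h1
  have h3 := hx _ h2
  rw [← aeval_self, hmg_aeval R x hx1] at h3
  have h4 : ∀ i, aeval x (it G n i) = (pmap G)^[n] x i := by
    intro i
    rw [aeval_self, ← pmap_it]
    rfl
  rw [hR k x (by rw [h4]; exact hxn)] at h3
  have h5 : (fun i => aeval x (it G n i) / aeval x (it G n 1)) = af ((pmap G)^[n] x) := by
    funext i
    rw [h4, h4]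
    rfl
  rw [h5, h4] at h3
  have h6 := (mul_eq_zero.1 h3).resolve_left (pow_ne_zero _ hxn)
  rw [aeval_def] at h6
  exact h6

end Pool.Agent.H50.EDV
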